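import Mathlib
import Pool.Agent.H814R3.Defs
import Pool.Agent.H814R3.Final

set_option autoImplicit false

/-!
Semiconjugacy classes of generalized interval exchange maps need not be topological submanifolds of
codimension `d - 1`: a counterexample with four intervals, in every class `C^r`, `r ≥ 1`.
-/

namespace Pool.Agent.Results.MP_78e4b4_an.NotSubmanifold

open Pool.Agent.H814R3.IEM

universe u

/-- There are irreducible combinatorial data of `d = 4` intervals such that, for every `r ≥ 1`, some
standard interval exchange map `T₀` without connections has a semiconjugacy class which is not a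
topological submanifold of codimension `3 = d - 1` of the space of generalized interval exchange
maps of class `C^r`. Moreover some `T₁` in the class is such that near `T₁` no set containing the
class is a topological submanifold of codimension `3`. -/
theorem result : ∃ πt πb : Fin 4 ≃ Fin 4, Irreducible πt πb ∧ ∀ r : ℕ, 1 ≤ r →
    ∃ T₀ : GIEM r πt πb, T₀.IsStandard ∧ T₀.NoConnections ∧
      ¬ IsTopSubmanifold.{u} T₀.SemiClass 3 ∧
      ∃ T₁ ∈ T₀.SemiClass, ∀ S : Set (GIEM r πt πb), T₀.SemiClass ⊆ S →
        ¬ IsCodimAt.{u} S 3 T₁ := by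
  obtain ⟨C⟩ := Pool.Agent.H814R3.exists_Ch Bini_ok (fun i => by
    have := ρi_pos i
    constructor
    · show ρi i / 2 ≤ ρi i
      linarith
    · show ρi i ≤ 2 * ρi i
      linarith)
  refine ⟨Pool.Agent.H814R3.IEM.πt, Pool.Agent.H814R3.IEM.πb, irreducible, fun r hr => ?_⟩
  obtain ⟨T₀, h1, h2, T₁, h3, h4⟩ := main hr C
  exact ⟨T₀, h1, h2, fun h => h4 _ subset_rfl (h T₁ h3), T₁, h3, h4⟩

end Pool.Agent.Results.MP_78e4b4_an.NotSubmanifold
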